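import Pool.Agent.Helper72.WC.Defs

/-!
# Project WC: the upper bound (Client's strategy)
-/

set_option autoImplicit false

namespace Pool.Agent.Helper72.WC

open Finset

variable {n : ℕ}

/-- The total deficiency. -/
private def df (k : ℕ) (C : Finset (Sym2 (Fin n))) : ℕ := ∑ v, (k - dg C v)

/-- The deficient vertices. -/
private def ED (k : ℕ) (C : Finset (Sym2 (Fin n))) : Finset (Fin n) :=
  univ.filter fun v => dg C v < k

private theorem nb_insert (C : Finset (Sym2 (Fin n))) (x y v : Fin n) :
    nb (insert s(x, y) C) v ⊆ nb C v ∪ (if v = x then {y} else if v = y then {x} else ∅) := by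
  intro w hw
  simp only [nb, mem_filter, mem_univ, true_and, mem_insert, mem_union] at hw ⊢
  rcases hw with hw | hw
  · right
    rw [Sym2.eq_iff] at hw
    rcases hw with ⟨h1, h2⟩ | ⟨h1, h2⟩
    · rw [if_pos h1]
      simp [h2]
    · by_cases hvx : v = x
      · rw [if_pos hvx]
        subst h1 h2
        simp [hvx]
      · rw [if_neg hvx, if_pos h1]
        simp [h2]
  · exact Or.inl hw

private theorem dg_insert_le (C : Finset (Sym2 (Fin n))) (x y v : Fin n) :
    dg (insert s(x, y) C) v ≤ dg C v + (if v = x ∨ v = y then 1 else 0) := by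
  unfold dg
  refine (card_le_card (nb_insert C x y v)).trans ((card_union_le _ _).trans ?_)
  refine Nat.add_le_add_left ?_ _
  by_cases h1 : v = x
  · simp [h1]
  · by_cases h2 : v = y
    · simp only [h2, or_true, if_true]
      split <;> simp
    · simp [h1, h2]

private theorem dg_le_insert (C : Finset (Sym2 (Fin n))) (e : Sym2 (Fin n)) (v : Fin n) :
    dg C v ≤ dg (insert e C) v := by
  unfold dg nb
  refine card_le_card fun w hw => ?_
  simp only [mem_filter, mem_univ, true_and, mem_insert] at hw ⊢
  exact Or.inr hw

private theorem ED_sub (k : ℕ) (C : Finset (Sym2 (Fin n))) (e : Sym2 (Fin n)) :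
    ED k (insert e C) ⊆ ED k C := by
  intro v hv
  simp only [ED, mem_filter, mem_univ, true_and] at hv ⊢
  exact (dg_le_insert C e v).trans_lt hv

private theorem df_insert (k : ℕ) (C : Finset (Sym2 (Fin n))) (x y : Fin n) :
    df k C ≤ df k (insert s(x, y) C) + ((ED k C).filter fun v => v = x ∨ v = y).card := by
  have h1 : ((ED k C).filter fun v => v = x ∨ v = y).card =
      ∑ v : Fin n, if dg C v < k ∧ (v = x ∨ v = y) then 1 else 0 := by
    rw [card_filter, ED, sum_filter]
    refine sum_congr rfl fun v _ => ?_
    by_cases h : dg C v < k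
    · simp [h]
    · simp [h]
  rw [h1, df, df, ← sum_add_distrib]
  refine sum_le_sum fun v _ => ?_
  have h2 := dg_insert_le C x y v
  by_cases h : dg C v < k
  · by_cases h' : v = x ∨ v = y
    · rw [if_pos h'] at h2
      rw [if_pos ⟨h, h'⟩]
      omega
    · rw [if_neg h'] at h2
      rw [if_neg fun h3 => h' h3.2]
      omega
  · omega

private theorem two_ends (x y : Fin n) (S : Finset (Fin n)) :
    (S.filter fun v => v = x ∨ v = y).card ≤ 2 := by
  refine (card_le_card (t := {x, y}) fun v hv => ?_).trans card_le_two
  simp only [mem_filter] at hv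
  simp [hv.2]

private theorem one_end (x y : Fin n) (S : Finset (Fin n)) (h : s(x, y) ∉ S.sym2) :
    (S.filter fun v => v = x ∨ v = y).card ≤ 1 := by
  rw [mk_mem_sym2_iff, not_and_or] at h
  rcases h with h | h
  · refine (card_le_card (t := {y}) fun v hv => ?_).trans (card_singleton y).le
    simp only [mem_filter, mem_singleton] at hv ⊢
    rcases hv.2 with h1 | h1
    · exact absurd (h1 ▸ hv.1) h
    · exact h1
  · refine (card_le_card (t := {x}) fun v hv => ?_).trans (card_singleton x).le
    simp only [mem_filter, mem_singleton] at hv ⊢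
    rcases hv.2 with h1 | h1
    · exact h1
    · exact absurd (h1 ▸ hv.1) h

private theorem ED_card (k : ℕ) (C : Finset (Sym2 (Fin n))) (x y : Fin n) :
    (ED k C).card ≤ (ED k (insert s(x, y) C)).card + 2 := by
  have h1 : ED k C ⊆ ED k (insert s(x, y) C) ∪ {x, y} := by
    intro v hv
    rw [mem_union]
    by_contra hcon
    rw [not_or] at hcon
    obtain ⟨h2, h3⟩ := hcon
    simp only [mem_insert, mem_singleton] at h3
    have h4 := dg_insert_le C x y v
    rw [if_neg h3] at h4
    simp only [ED, mem_filter, mem_univ, true_and, not_lt] at hv h2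
    omega
  exact (card_le_card h1).trans ((card_union_le _ _).trans (Nat.add_le_add_left card_le_two _))

private theorem minDeg_iff {k : ℕ} {C : Finset (Sym2 (Fin n))} (h : MinDeg k (gr C)) (v : Fin n) : k ≤ dg C v := by
  refine (h v).trans ?_
  have h1 : (gr C).neighborSet v ⊆ (nb C v : Set (Fin n)) := by
    intro w hw
    have h2 : (gr C).Adj v w := hw
    rw [gr, SimpleGraph.fromEdgeSet_adj] at h2
    simp only [nb, coe_filter, mem_univ, true_and, Set.mem_ofPred_eq]
    exact h2.1
  exact (Set.ncard_le_ncard h1 (finite_toSet _)).trans (by rw [Set.ncard_coe_finset]; rfl)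

private theorem df_zero {k : ℕ} {C : Finset (Sym2 (Fin n))} (hC : C ⊆ board n)
    (h : MinDeg k (gr C)) : df k C = 0 := by
  unfold df
  refine sum_eq_zero fun v _ => ?_
  have := minDeg_iff h v
  omega

private theorem ED_empty {k : ℕ} {C : Finset (Sym2 (Fin n))} (hC : C ⊆ board n)
    (h : MinDeg k (gr C)) : ED k C = ∅ := by
  unfold ED
  refine filter_eq_empty_iff.2 fun v _ => ?_
  have := minDeg_iff h v
  omega

private theorem U1 {b k : ℕ} (hb : 0 < b) {U C : Finset (Sym2 (Fin n))}
    (h : Win b (fun C => MinDeg k (gr C)) U C) : U ⊆ board n → C ⊆ board n →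
    b * df k C ≤ U.card + (U.filter fun e => e ∈ (ED k C).sym2).card := by
  induction h with
  | stop h1 h2 =>
    intro _ hC
    rw [df_zero hC h2]
    simp
  | @play U C B hB hBb h1 ih =>
    intro hU hC
    have hU' : U \ B ⊆ board n := sdiff_subset.trans hU
    have hcard : (U \ B).card + b = U.card := by
      rw [card_sdiff_of_subset hB, hBb]
      have := card_le_card hB
      omega
    have hC' : ∀ e ∈ B, insert e C ⊆ board n := fun e he => insert_subset (hU (hB he)) hC
    by_cases hex : ∃ e ∈ B, e ∉ (ED k C).sym2
    · obtain ⟨e, he, he'⟩ := hex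
      have h3 := ih e he hU' (hC' e he)
      induction e using Sym2.ind with
      | _ x y =>
      have h4 := df_insert k C x y
      have h5 := one_end x y (ED k C) he'
      have h6 : ((U \ B).filter fun e => e ∈ (ED k (insert s(x, y) C)).sym2).card ≤
          (U.filter fun e => e ∈ (ED k C).sym2).card := by
        refine card_le_card fun e he => ?_
        simp only [mem_filter, mem_sdiff] at he ⊢
        exact ⟨he.1.1, sym2_mono (ED_sub k C _) he.2⟩
      have h7 : b * df k C ≤ b * df k (insert s(x, y) C) + b := by
        calc b * df k C ≤ b * (df k (insert s(x, y) C) + 1) :=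
              Nat.mul_le_mul_left _ (h4.trans (Nat.add_le_add_left h5 _))
          _ = _ := by ring
      omega
    · push Not at hex
      obtain ⟨e, he⟩ : B.Nonempty := card_pos.1 (hBb ▸ hb)
      have h3 := ih e he hU' (hC' e he)
      induction e using Sym2.ind with
      | _ x y =>
      have h4 := df_insert k C x y
      have h5 := two_ends x y (ED k C)
      have h6 : ((U \ B).filter fun e => e ∈ (ED k (insert s(x, y) C)).sym2).card + b ≤
          (U.filter fun e => e ∈ (ED k C).sym2).card := by
        rw [← hBb, ← card_union_of_disjoint]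
        · refine card_le_card fun e he => ?_
          simp only [mem_union, mem_filter, mem_sdiff] at he ⊢
          rcases he with he | he
          · exact ⟨he.1.1, sym2_mono (ED_sub k C _) he.2⟩
          · exact ⟨hB he, hex e he⟩
        · rw [disjoint_left]
          intro e he he'
          simp only [mem_filter, mem_sdiff] at he
          exact he.1.2 he'
      have h7 : b * df k C ≤ b * df k (insert s(x, y) C) + 2 * b := by
        calc b * df k C ≤ b * (df k (insert s(x, y) C) + 2) :=
              Nat.mul_le_mul_left _ (h4.trans (Nat.add_le_add_left h5 _))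
          _ = _ := by ring
      omega

private theorem card_filter_sym2 {U : Finset (Sym2 (Fin n))} (hU : U ⊆ board n)
    (S : Finset (Fin n)) {u : ℕ} (hS : S.card ≤ u) :
    2 * (U.filter fun e => e ∈ S.sym2).card ≤ u * (u - 1) := by
  have h1 : (U.filter fun e => e ∈ S.sym2) ⊆ S.offDiag.image Sym2.mk.uncurry := by
    intro e he
    simp only [mem_filter] at he
    have h2 := hU he.1
    simp only [board, mem_filter, mem_univ, true_and] at h2
    induction e using Sym2.ind with
    | _ x y =>
    rw [mk_mem_sym2_iff] at he
    rw [Sym2.mk_isDiag_iff] at h2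
    simp only [mem_image, mem_offDiag]
    exact ⟨(x, y), ⟨he.2.1, he.2.2, h2⟩, rfl⟩
  have h2 := Sym2.two_mul_card_image_offDiag S
  have h3 := card_le_card h1
  have h4 : S.offDiag.card ≤ u * (u - 1) := by
    rw [offDiag_card]
    have : S.card * S.card - S.card = S.card * (S.card - 1) := by
      rw [Nat.mul_sub, Nat.mul_one]
    rw [this]
    exact Nat.mul_le_mul hS (Nat.sub_le_sub_right hS 1)
  omega

private theorem U2 {b k u : ℕ} (hb : 0 < b) (hu : 2 ≤ u) (hub : u ≤ b + 1)
    {U C : Finset (Sym2 (Fin n))}
    (h : Win b (fun C => MinDeg k (gr C)) U C) : U ⊆ board n → C ⊆ board n →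
    u ≤ (ED k C).card → b * df k C + (u - 2) * (b + 1 - u) ≤ 2 * U.card := by
  induction h with
  | stop h1 h2 =>
    intro _ hC h3
    rw [ED_empty hC h2] at h3
    simp at h3
    omega
  | @play U C B hB hBb h1 ih =>
    intro hU hC hE
    have hU' : U \ B ⊆ board n := sdiff_subset.trans hU
    have hcard : (U \ B).card + b = U.card := by
      rw [card_sdiff_of_subset hB, hBb]
      have := card_le_card hB
      omega
    obtain ⟨e, he⟩ : B.Nonempty := card_pos.1 (hBb ▸ hb)
    have hC' : insert e C ⊆ board n := insert_subset (hU (hB he)) hC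
    have h3 := ih e he hU' hC'
    have h3' := U1 hb (h1 e he) hU' hC'
    induction e using Sym2.ind with
    | _ x y =>
    have h4 := df_insert k C x y
    have h5 := two_ends x y (ED k C)
    have h7 : b * df k C ≤ b * df k (insert s(x, y) C) + 2 * b := by
      calc b * df k C ≤ b * (df k (insert s(x, y) C) + 2) :=
            Nat.mul_le_mul_left _ (h4.trans (Nat.add_le_add_left h5 _))
        _ = _ := by ring
    by_cases hc : u ≤ (ED k (insert s(x, y) C)).card
    · have h8 := h3 hc
      omega
    · have h8 := ED_card k C x y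
      have h9 : u - 2 ≤ df k (insert s(x, y) C) := by
        have h10 : (ED k (insert s(x, y) C)).card ≤ df k (insert s(x, y) C) := by
          rw [df, card_eq_sum_ones, ED, sum_filter]
          refine sum_le_sum fun v _ => ?_
          split <;> omega
        omega
      have h10 := card_filter_sym2 hU' (ED k (insert s(x, y) C)) (u := u - 1) (by omega)
      obtain ⟨w, rfl⟩ : ∃ w, u = w + 2 := ⟨u - 2, by omega⟩
      obtain ⟨c, rfl⟩ : ∃ c, b = w + 1 + c := ⟨b - (w + 1), by omega⟩
      have e1 : w + 2 - 2 = w := by omega
      have e2 : w + 1 + c + 1 - (w + 2) = c := by omega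
      have e3 : w + 2 - 1 = w + 1 := by omega
      have e4 : w + 1 - 1 = w := by omega
      rw [e1, e2]
      rw [e1] at h9
      rw [e3, e4] at h10
      set D := df k (insert s(x, y) C) with hD
      set F := ((U \ B).filter fun e => e ∈ (ED k (insert s(x, y) C)).sym2).card with hF
      have h11 : (w + 1 + c) * w ≤ (w + 1 + c) * D := Nat.mul_le_mul_left _ h9
      nlinarith

theorem upper {b k u : ℕ} (hb : 0 < b) (hk : 1 ≤ k) (hu : 2 ≤ u) (hun : u ≤ n)
    (hub : u ≤ b + 1) (h : Win b (fun C => MinDeg k (gr C)) (board n) ∅) :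
    b * k * n + (u - 2) * (b + 1 - u) ≤ n * (n - 1) := by
  have h0 : ∀ v : Fin n, dg (∅ : Finset (Sym2 (Fin n))) v = 0 := fun v => by
    simp [dg, nb]
  have h1 : df k (∅ : Finset (Sym2 (Fin n))) = n * k := by
    simp [df, h0]
  have h2 : ED k (∅ : Finset (Sym2 (Fin n))) = univ := by
    unfold ED
    refine filter_true_of_mem fun v _ => ?_
    rw [h0]
    omega
  have hn : u ≤ (ED k (∅ : Finset (Sym2 (Fin n)))).card := by
    rw [h2, card_univ, Fintype.card_fin]
    exact hun
  have h3 := U2 hb hu hub h (Subset.refl _) (empty_subset _) hn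
  have h4 := card_filter_sym2 (Subset.refl (board n)) (univ : Finset (Fin n)) (u := n)
    (by simp)
  have h5 : ((board n).filter fun e => e ∈ (univ : Finset (Fin n)).sym2) = board n := by
    refine filter_true_of_mem fun e _ => ?_
    simp
  rw [h5] at h4
  rw [h1] at h3
  calc b * k * n + (u - 2) * (b + 1 - u) = b * (n * k) + (u - 2) * (b + 1 - u) := by ring
    _ ≤ _ := h3.trans h4

end Pool.Agent.Helper72.WC
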